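import Pool.Agent.Helper15.DAK.Stmts

/-!
# Row ALG of the project DAK
-/

namespace Pool.Agent.Helper15.DAK

open Pool.Agent.Helper15.DAF

namespace S25A

theorem tr_list {K L : Type} [Field K] [Field L] [Algebra ℂ K] [Algebra ℂ L] [Algebra K L]
    (n : ℕ) (p : Fin n → Module.End ℂ K) (q : Fin n → Module.End ℂ L)
    (h : ∀ i f, Algebra.trace K L (q i f) = p i (Algebra.trace K L f)) (f : L) :
    Algebra.trace K L ((List.ofFn q).prod f) = (List.ofFn p).prod (Algebra.trace K L f) := by
  induction n with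
  | zero => simp
  | succ n ih =>
    rw [List.ofFn_succ, List.ofFn_succ, List.prod_cons, List.prod_cons, Module.End.mul_apply,
      Module.End.mul_apply, h, ih (fun i => p i.succ) (fun i => q i.succ) fun i f => h i.succ f]

theorem tr_pow {K L : Type} [Field K] [Field L] [Algebra ℂ K] [Algebra ℂ L] [Algebra K L]
    (p : Module.End ℂ K) (q : Module.End ℂ L)
    (h : ∀ f, Algebra.trace K L (q f) = p (Algebra.trace K L f)) (k : ℕ) (f : L) :
    Algebra.trace K L ((q ^ k) f) = (p ^ k) (Algebra.trace K L f) := by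
  induction k with
  | zero => simp
  | succ k ih =>
    rw [pow_succ', pow_succ', Module.End.mul_apply, Module.End.mul_apply, h, ih]

theorem tr_tmon {K L : Type} [Field K] [Field L] [Algebra ℂ K] [Algebra ℂ L] [Algebra K L]
    (n : ℕ) (t : Fin n → Module.End ℂ K) (T : Fin n → Module.End ℂ L)
    (h : ∀ i f, Algebra.trace K L (T i f) = t i (Algebra.trace K L f)) (α : Fin n → ℕ) (f : L) :
    Algebra.trace K L (tmon T α f) = tmon t α (Algebra.trace K L f) :=
  tr_list n _ _ (fun i f => tr_pow (t i) (T i) (h i) (α i) f) f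

theorem card_B (n N : ℕ) (i0 : Fin n) :
    ((Fintype.piFinset fun _ : Fin n => Finset.range (N + 1)).filter
      (fun β => β i0 = 0)).card ≤ (N + 1) ^ (n - 1) := by
  have h : ((Fintype.piFinset fun _ : Fin n => Finset.range (N + 1)).filter
      (fun β => β i0 = 0)) ⊆
      Fintype.piFinset fun i : Fin n => if i = i0 then {0} else Finset.range (N + 1) := by
    intro β hβ
    rw [Finset.mem_filter, Fintype.mem_piFinset] at hβ
    rw [Fintype.mem_piFinset]
    intro i
    split_ifs with hi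
    · rw [hi, Finset.mem_singleton]; exact hβ.2
    · exact hβ.1 i
  refine (Finset.card_le_card h).trans ?_
  rw [Fintype.card_piFinset]
  have h2 : ∀ i : Fin n, (if i = i0 then ({0} : Finset ℕ) else Finset.range (N + 1)).card =
      if i = i0 then 1 else N + 1 := by
    intro i
    split_ifs <;> simp
  rw [Finset.prod_congr rfl fun i _ => h2 i, Finset.prod_ite, Finset.prod_const_one, one_mul,
    Finset.prod_const, Finset.filter_ne', Finset.card_erase_of_mem (Finset.mem_univ _),
    Finset.card_univ, Fintype.card_fin]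

theorem count (n d m : ℕ) (hn : 0 < n) (hm : m = d * n ^ (n - 1)) :
    (n * m + 1) ^ (n - 1) * d < (m + 1) ^ n := by
  have h1 : n * m + 1 ≤ n * (m + 1) := by
    rw [mul_add, mul_one]; omega
  have h2 : (n * m + 1) ^ (n - 1) ≤ n ^ (n - 1) * (m + 1) ^ (n - 1) := by
    rw [← mul_pow]
    exact Nat.pow_le_pow_left h1 _
  have h3 : (m + 1) ^ n = (m + 1) * (m + 1) ^ (n - 1) := by
    rw [← pow_succ']
    congr 1
    omega
  rw [h3]
  calc (n * m + 1) ^ (n - 1) * d ≤ n ^ (n - 1) * (m + 1) ^ (n - 1) * d :=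
        Nat.mul_le_mul_right d h2
    _ = m * (m + 1) ^ (n - 1) := by rw [hm]; ring
    _ < (m + 1) * (m + 1) ^ (n - 1) :=
        Nat.mul_lt_mul_of_pos_right (Nat.lt_succ_self m) (pow_pos (Nat.succ_pos m) _)

end S25A

open S25A in
theorem st_ALG (h1 : ST_LIFTD) (h2 : ST_TRD) (h3 : ST_COORDL) (h4 : ST_SPAN) (h5 : ST_LIND) :
    ST_ALG := by
  intro K L _ _ _ _ _ _ _ n t y hty v hv hv0
  obtain ⟨ht, -, -⟩ := id hty
  choose T hT hTt using fun i => h1 K L (t i) (ht i)
  obtain ⟨hcomm, hvs⟩ := h3 K L n t y hty T hT hTt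
  have hvv := hvs v hv
  obtain ⟨a, ha⟩ : ∃ a : Fin n → L, ∀ i, a i = v (algebraMap K L (y i)) := ⟨_, fun _ => rfl⟩
  have hva : ∀ f, v f = ∑ i, a i * T i f := by
    intro f
    rw [hvv, LinearMap.sum_apply]
    refine Finset.sum_congr rfl fun i _ => ?_
    rw [ha]
    rfl
  obtain ⟨i0, hi0⟩ : ∃ i0, a i0 ≠ 0 := by
    by_contra hcon
    push Not at hcon
    apply hv0
    ext f
    rw [hva, LinearMap.zero_apply]
    exact Finset.sum_eq_zero fun i _ => by rw [hcon, zero_mul]
  have hn : 0 < n := i0.pos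
  obtain ⟨m, hm⟩ : ∃ m : ℕ, m = Module.finrank K L * n ^ (n - 1) := ⟨_, rfl⟩
  have hcount := count n (Module.finrank K L) m hn hm
  obtain ⟨B, hB⟩ : ∃ B : Finset (Fin n → ℕ), B =
    (Fintype.piFinset fun _ : Fin n => Finset.range (n * m + 1)).filter
      (fun β => β i0 = 0) := ⟨_, rfl⟩
  obtain ⟨A, hA⟩ : ∃ A : Finset (Fin n → ℕ), A =
    (Fintype.piFinset fun _ : Fin n => Finset.range (m + 1)) := ⟨_, rfl⟩
  have hBc : B.card ≤ (n * m + 1) ^ (n - 1) := by rw [hB]; exact card_B n (n * m) i0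
  have hAc : A.card = (m + 1) ^ n := by
    rw [hA, Fintype.card_piFinset]; simp
  have key : ∀ α : Fin n → ℕ, ∃ c : (Fin n → ℕ) → L, α ∈ A → ∀ f, v f = 0 →
      tmon T α f = ∑ β ∈ B, c β * tmon T β f := by
    intro α
    by_cases hα : α ∈ A
    · have hs : ∑ i, α i ≤ n * m := by
        rw [hA, Fintype.mem_piFinset] at hα
        have h6 : ∑ i : Fin n, α i ≤ ∑ _i : Fin n, m :=
          Finset.sum_le_sum fun i _ => by
            have := Finset.mem_range.mp (hα i)
            omega
        simpa using h6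
      obtain ⟨c, hc⟩ := h4 L n T a i0 hT hcomm hi0 (n * m) α hs
      refine ⟨c, fun _ f hf => ?_⟩
      rw [hB]
      exact hc f (by rw [← hva]; exact hf)
    · exact ⟨0, fun h => absurd h hα⟩
  choose c hc using key
  let Φ : ((↥A) → K) →ₗ[K] ((↥B) → L) :=
    { toFun := fun p β => ∑ α : ↥A, p α • c α.1 β.1
      map_add' := by
        intro p q
        ext β
        simp [add_smul, Finset.sum_add_distrib]
      map_smul' := by
        intro k p
        ext β
        simp [Finset.smul_sum, smul_smul] }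
  have hker : LinearMap.ker Φ ≠ ⊥ := by
    apply LinearMap.ker_ne_bot_of_finrank_lt
    rw [Module.finrank_fintype_fun_eq_card, Fintype.card_coe, hAc, Module.finrank_pi_fintype,
      Finset.sum_const, Finset.card_univ, Fintype.card_coe, smul_eq_mul]
    exact lt_of_le_of_lt (Nat.mul_le_mul_right _ hBc) hcount
  obtain ⟨p, hp, hp0⟩ := (Submodule.ne_bot_iff _).1 hker
  have hp' : ∀ β : ↥B, ∑ α : ↥A, p α • c α.1 β.1 = 0 := by
    intro β
    have h6 := LinearMap.mem_ker.mp hp
    exact congrFun h6 β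
  classical
  obtain ⟨q, hq⟩ : ∃ q : (Fin n → ℕ) → K, ∀ α : ↥A, q α.1 = p α :=
    ⟨fun α => if h : α ∈ A then p ⟨α, h⟩ else 0, fun α => by simp⟩
  refine ⟨∑ α ∈ A, mulOp (q α) * tmon t α, ?_, ?_, ?_⟩
  · refine Subalgebra.sum_mem _ fun α _ => Subalgebra.mul_mem _ ?_ ?_
    · exact Algebra.subset_adjoin (Or.inl ⟨q α, rfl⟩)
    · refine Subalgebra.list_prod_mem _ fun x hx => ?_
      rw [List.mem_ofFn] at hx
      obtain ⟨i, rfl⟩ := hx
      have hti : t i ∈ DK K := Algebra.subset_adjoin (Or.inr (ht i))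
      exact Subalgebra.pow_mem _ hti _
  · intro h0
    apply hp0
    ext α
    rw [← hq]
    exact h5 K n t y hty A q h0 α.1 α.2
  · intro f hf
    have hsum : ∀ β ∈ B, ∑ α ∈ A, q α • c α β = 0 := by
      intro β hβ
      have h6 := hp' ⟨β, hβ⟩
      rw [← Finset.sum_coe_sort A (fun α => q α • c α β), ← h6]
      exact Finset.sum_congr rfl fun α _ => by rw [hq]
    have htr : ∀ α ∈ A, (mulOp (q α) * tmon t α) (Algebra.trace K L f) =
        ∑ β ∈ B, Algebra.trace K L ((q α • c α β) * tmon T β f) := by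
      intro α hα
      show q α * tmon t α (Algebra.trace K L f) = _
      rw [← tr_tmon n t T (fun i g => h2 K L (t i) (T i) (ht i) (hT i) (hTt i) g) α f,
        hc α hα f hf, ← smul_eq_mul, ← map_smul, Finset.smul_sum, map_sum]
      exact Finset.sum_congr rfl fun β _ => by rw [smul_mul_assoc]
    rw [LinearMap.sum_apply, Finset.sum_congr rfl htr, Finset.sum_comm]
    refine Finset.sum_eq_zero fun β hβ => ?_
    rw [← map_sum, ← Finset.sum_mul, hsum β hβ, zero_mul, map_zero]

end Pool.Agent.Helper15.DAK
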