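import Pool.Agent.Helper15.DAK.Stmts

/-!
# Row COORDL of the project DAK: lifted coordinates are coordinates
-/

namespace Pool.Agent.Helper15.DAK

open Pool.Agent.Helper15.DAF

namespace S25C

variable {K L : Type} [Field K] [Field L] [Algebra ℂ K] [Algebra ℂ L] [Algebra K L]
  [IsScalarTower ℂ K L] [FiniteDimensional K L]

/-- a derivation of `L` which vanishes on `K` is zero -/
theorem van (D : Module.End ℂ L) (hD : IsDer D) (h0 : ∀ a : K, D (algebraMap K L a) = 0) :
    D = 0 := by
  have hz : CharZero K := charZero_of_injective_algebraMap (algebraMap ℂ K).injective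
  have h1 : D 1 = 0 := by
    have h := h0 1
    rwa [map_one] at h
  let d0 : Derivation K L L :=
    { toFun := D
      map_add' := fun a b => map_add D a b
      map_smul' := fun a x => by
        show D (a • x) = a • D x
        rw [Algebra.smul_def, Algebra.smul_def, hD, h0, mul_zero, add_zero]
      map_one_eq_zero' := h1
      leibniz' := fun a b => by
        show D (a * b) = a • D b + b • D a
        rw [smul_eq_mul, smul_eq_mul]
        exact hD a b }
  ext x
  have h2 : d0 (Polynomial.aeval x (minpoly K x)) =
      Polynomial.aeval x (Polynomial.derivative (minpoly K x)) • d0 x :=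
    Derivation.map_aeval d0 (minpoly K x) x
  rw [minpoly.aeval, map_zero] at h2
  have h3 : Polynomial.aeval x (Polynomial.derivative (minpoly K x)) ≠ 0 :=
    (Algebra.IsSeparable.isSeparable K x).aeval_derivative_ne_zero (minpoly.aeval K x)
  exact (smul_eq_zero.mp h2.symm).resolve_left h3

theorem isDer_sub (a b : Module.End ℂ L) (ha : IsDer a) (hb : IsDer b) : IsDer (a - b) := by
  intro x y
  rw [LinearMap.sub_apply, LinearMap.sub_apply, LinearMap.sub_apply, ha, hb]
  ring

theorem isDer_comm (a b : Module.End ℂ L) (ha : IsDer a) (hb : IsDer b) :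
    IsDer (a * b - b * a) := by
  intro x y
  simp only [LinearMap.sub_apply, Module.End.mul_apply]
  rw [hb x y, ha x y, map_add, map_add, ha, ha, hb, hb]
  ring

theorem isDer_sum {n : ℕ} (c : Fin n → L) (T : Fin n → Module.End ℂ L) (hT : ∀ i, IsDer (T i)) :
    IsDer (∑ i, mulOp (c i) * T i) := by
  intro x y
  simp only [LinearMap.sum_apply, Module.End.mul_apply, Finset.mul_sum, ← Finset.sum_add_distrib]
  refine Finset.sum_congr rfl fun i _ => ?_
  show c i * T i (x * y) = x * (c i * T i y) + y * (c i * T i x)
  rw [hT i x y]
  ring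

end S25C

open S25C in
theorem st_COORDL : ST_COORDL := by
  intro K L _ _ _ _ _ _ _ n t y hty T hT hTt
  obtain ⟨ht, hyd, hall⟩ := hty
  have ht1 : ∀ (d : Module.End ℂ K), IsDer d → d 1 = 0 := by
    intro d hd
    have h := hd 1 1
    rw [one_mul, one_mul, left_eq_add] at h
    exact h
  refine ⟨?_, ?_⟩
  · intro i j
    have h1 : t i * t j - t j * t i = 0 := by
      rw [hall _ (isDer_comm _ _ (ht i) (ht j))]
      refine Finset.sum_eq_zero fun k _ => ?_
      have h2 : (t i * t j - t j * t i) (y k) = 0 := by
        rw [LinearMap.sub_apply, Module.End.mul_apply, Module.End.mul_apply, hyd, hyd]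
        have h3 : ∀ (l m : Fin n), t l (if m = k then (1 : K) else 0) = 0 := by
          intro l m
          split_ifs
          · exact ht1 _ (ht l)
          · exact map_zero _
        rw [h3, h3, sub_zero]
      rw [h2]
      ext z
      show (0 : K) * (t k z) = 0
      rw [zero_mul]
    have h4 : T i * T j - T j * T i = 0 := by
      refine van (K := K) _ (isDer_comm _ _ (hT i) (hT j)) fun a => ?_
      rw [LinearMap.sub_apply, Module.End.mul_apply, Module.End.mul_apply, hTt, hTt, hTt, hTt,
        ← map_sub]
      have h5 : t i (t j a) - t j (t i a) = (t i * t j - t j * t i) a := rfl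
      rw [h5, h1, LinearMap.zero_apply, map_zero]
    exact sub_eq_zero.mp h4
  · intro v hv
    obtain ⟨w, hw⟩ : ∃ w : Module.End ℂ L,
        w = v - ∑ i, mulOp (v (algebraMap K L (y i))) * T i := ⟨_, rfl⟩
    have hwd : IsDer w := by
      rw [hw]
      exact isDer_sub _ _ hv (isDer_sum _ _ hT)
    have hwy : ∀ j, w (algebraMap K L (y j)) = 0 := by
      intro j
      rw [hw, LinearMap.sub_apply, LinearMap.sum_apply, Finset.sum_eq_single j]
      · show v (algebraMap K L (y j)) - v (algebraMap K L (y j)) * T j (algebraMap K L (y j)) = 0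
        rw [hTt, hyd, if_pos rfl, map_one, mul_one, sub_self]
      · intro b _ hb
        show v (algebraMap K L (y b)) * T b (algebraMap K L (y j)) = 0
        rw [hTt, hyd, if_neg hb, map_zero, mul_zero]
      · intro h
        exact absurd (Finset.mem_univ j) h
    have hw0 : w = 0 := by
      refine van (K := K) w hwd fun a => ?_
      refine (Module.forall_dual_apply_eq_zero_iff K (w (algebraMap K L a))).mp fun f => ?_
      let d : Module.End ℂ K :=
        (f.restrictScalars ℂ) ∘ₗ w ∘ₗ (IsScalarTower.toAlgHom ℂ K L).toLinearMap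
      have hd : ∀ b : K, d b = f (w (algebraMap K L b)) := fun b => rfl
      have hdd : IsDer d := by
        intro b c
        rw [hd, hd, hd, map_mul, hwd, map_add, ← Algebra.smul_def, ← Algebra.smul_def, map_smul,
          map_smul, smul_eq_mul, smul_eq_mul]
      have h0 : d = 0 := by
        rw [hall d hdd]
        refine Finset.sum_eq_zero fun k _ => ?_
        rw [hd, hwy, map_zero]
        ext z
        show (0 : K) * (t k z) = 0
        rw [zero_mul]
      rw [← hd, h0, LinearMap.zero_apply]
    rw [hw0] at hw
    exact (sub_eq_zero.mp hw.symm)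

end Pool.Agent.Helper15.DAK
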