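import Pool.Agent.Helper15.DAK.Stmts

/-!
# Row LIFTD of the project DAK: derivations of `K` extend to a finite extension `L`
-/

namespace Pool.Agent.Helper15.DAK

namespace S25

theorem exists_der (K L : Type) [Field K] [Field L] [CharZero K] [Algebra K L]
    [FiniteDimensional K L] (d : Derivation ℤ K K) :
    ∃ D : Derivation ℤ L L, ∀ a : K, D (algebraMap K L a) = algebraMap K L (d a) := by
  letI : Differential K := ⟨d⟩
  letI : Differential L := Differential.differentialFiniteDimensional K L
  have h : DifferentialAlgebra K L := Differential.differentialAlgebraFiniteDimensional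
  exact ⟨Differential.deriv, fun a => h.deriv_algebraMap a⟩

end S25

theorem st_LIFTD : ST_LIFTD := by
  intro K L _ _ _ _ _ _ _ d hd
  have hz : CharZero K := charZero_of_injective_algebraMap (algebraMap ℂ K).injective
  have h1 : d 1 = 0 := by
    have h := hd 1 1
    rw [one_mul, one_mul, left_eq_add] at h
    exact h
  have hc : ∀ c : ℂ, d (algebraMap ℂ K c) = 0 := by
    intro c
    rw [Algebra.algebraMap_eq_smul_one, map_smul, h1, smul_zero]
  let d0 : Derivation ℤ K K :=
    { toFun := d
      map_add' := fun a b => map_add d a b
      map_smul' := fun n a => by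
        show d (n • a) = n • d a
        exact map_zsmul d n a
      map_one_eq_zero' := h1
      leibniz' := fun a b => by
        show d (a * b) = a • d b + b • d a
        rw [smul_eq_mul, smul_eq_mul]
        exact hd a b }
  obtain ⟨D, hD⟩ := S25.exists_der K L d0
  have hDc : ∀ c : ℂ, D (algebraMap ℂ L c) = 0 := by
    intro c
    rw [IsScalarTower.algebraMap_apply ℂ K L, hD]
    show algebraMap K L (d (algebraMap ℂ K c)) = 0
    rw [hc, map_zero]
  refine ⟨{ toFun := D, map_add' := fun a b => map_add D a b, map_smul' := ?_ }, ?_, ?_⟩
  · intro c x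
    rw [Algebra.smul_def, Derivation.leibniz, hDc, smul_zero, add_zero, smul_eq_mul,
      RingHom.id_apply, Algebra.smul_def]
  · intro a b
    show D (a * b) = a * D b + b * D a
    rw [Derivation.leibniz, smul_eq_mul, smul_eq_mul]
  · intro a
    exact hD a

end Pool.Agent.Helper15.DAK
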